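import Pool.Agent.H85.KS2.Targets

/-!
Board ks2_modules, module INT2: the sum of the main estimates over the high arcs.
-/

set_option autoImplicit false

open MeasureTheory
open Pool.Agent.H98.KS Pool.Agent.H85.KS2

namespace Pool.Agent.H64.KS2

open Finset

lemma log_sqrt_le (g : ℝ) (hg : 0 < g) (t : ℝ) (ht : 0 ≤ t) :
    (Real.log (3 + t)) ^ ((1 : ℝ) / 2) ≤
      ((3 : ℝ) ^ (2 * g) / (2 * g)) ^ ((1 : ℝ) / 2) * (1 + t) ^ g := by
  have h1 : Real.log (3 + t) ≤ (3 : ℝ) ^ (2 * g) / (2 * g) * (1 + t) ^ (2 * g) := by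
    have h2 := Real.log_le_rpow_div (x := 3 + t) (by linarith) (show (0 : ℝ) < 2 * g by linarith)
    have h3 : (3 + t) ^ (2 * g) ≤ (3 * (1 + t)) ^ (2 * g) :=
      Real.rpow_le_rpow (by linarith) (by linarith) (by linarith)
    rw [Real.mul_rpow (by norm_num) (by linarith)] at h3
    refine h2.trans ?_
    rw [div_mul_eq_mul_div]
    exact div_le_div_of_nonneg_right h3 (by linarith)
  have h9 : 0 ≤ Real.log (3 + t) := Real.log_nonneg (by linarith)
  have h10 := Real.rpow_le_rpow h9 h1 (show (0 : ℝ) ≤ 1 / 2 by norm_num)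
  refine h10.trans (le_of_eq ?_)
  rw [Real.mul_rpow (by positivity) (by positivity), ← Real.rpow_mul (by linarith : 0 ≤ 1 + t)]
  congr 2
  ring

lemma BB_nonneg (k d q : ℕ) (κ : ℝ) : 0 ≤ BB k d q κ := by
  unfold BB
  have h1 : 0 ≤ Real.log (3 + |κ|) := Real.log_nonneg (by linarith [abs_nonneg κ])
  positivity

lemma BB_le (g : ℝ) (hg : 0 < g) (k d q : ℕ) (κ : ℝ) :
    BB k d q κ ≤ ((3 : ℝ) ^ (2 * g) / (2 * g)) ^ ((1 : ℝ) / 2) * ((q : ℝ) ^ (-((d : ℝ) / k)) *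
      (1 + |κ|) ^ (-(e0 k * ((d : ℝ) - 1) - g))) := by
  unfold BB
  have h0 : 0 < 1 + |κ| := by positivity
  have h1 := log_sqrt_le g hg |κ| (abs_nonneg κ)
  have h2 : 0 ≤ (q : ℝ) ^ (-((d : ℝ) / k)) * (1 + |κ|) ^ (-(e0 k * ((d : ℝ) - 1))) := by positivity
  refine (mul_le_mul_of_nonneg_left h1 h2).trans (le_of_eq ?_)
  have h3 : (1 + |κ|) ^ (-(e0 k * ((d : ℝ) - 1) - g)) =
      (1 + |κ|) ^ (-(e0 k * ((d : ℝ) - 1))) * (1 + |κ|) ^ g := by
    rw [← Real.rpow_add h0]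
    congr 1
    ring
  rw [h3]
  ring

lemma BB_cont (k d q : ℕ) : Continuous (fun κ : ℝ => BB k d q κ) := by
  unfold BB
  refine Continuous.mul (Continuous.mul continuous_const ?_) ?_
  · exact Continuous.rpow_const (by fun_prop) fun x => Or.inl (by positivity)
  · refine Continuous.rpow_const ?_ fun x => Or.inr (by norm_num)
    exact Continuous.log (by fun_prop) fun x => by positivity

lemma intu (u : ℝ) (hu : 1 < u) : Integrable (fun κ : ℝ => (1 + |κ|) ^ (-u)) := by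
  have h := integrable_one_add_norm (E := ℝ) (μ := volume) (r := u) (by simpa using hu)
  exact h

/-- sums of `q ^ (δ - 1)` -/
lemma sum1 (δ : ℝ) (h0 : 0 < δ) (h1 : δ ≤ 1) (n : ℕ) :
    ∑ q ∈ Finset.Icc 1 n, (q : ℝ) ^ (δ - 1) ≤ 1 / δ * (n : ℝ) ^ δ := by
  induction n with
  | zero => simp [Real.zero_rpow h0.ne']
  | succ n ih =>
    rw [Finset.sum_Icc_succ_top (by omega)]
    have hn : (0 : ℝ) < ((n + 1 : ℕ) : ℝ) := by positivity
    have h2 : δ * ((n + 1 : ℕ) : ℝ) ^ (δ - 1) ≤ ((n + 1 : ℕ) : ℝ) ^ δ - (n : ℝ) ^ δ := by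
      have h3 := rpow_one_add_le_one_add_mul_self (s := -(1 / ((n + 1 : ℕ) : ℝ)))
        (by
          have : 1 / ((n + 1 : ℕ) : ℝ) ≤ 1 := by
            rw [div_le_one hn]
            push_cast
            linarith [Nat.cast_nonneg (α := ℝ) n]
          linarith) h0.le h1
      have h4 : (n : ℝ) = ((n + 1 : ℕ) : ℝ) * (1 + -(1 / ((n + 1 : ℕ) : ℝ))) := by
        field_simp
        push_cast
        ring
      have h5 : 0 ≤ 1 + -(1 / ((n + 1 : ℕ) : ℝ)) := by
        have : 1 / ((n + 1 : ℕ) : ℝ) ≤ 1 := by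
          rw [div_le_one hn]
          push_cast
          linarith [Nat.cast_nonneg (α := ℝ) n]
        linarith
      have h6 : (n : ℝ) ^ δ = ((n + 1 : ℕ) : ℝ) ^ δ * (1 + -(1 / ((n + 1 : ℕ) : ℝ))) ^ δ := by
        conv_lhs => rw [h4]
        exact Real.mul_rpow hn.le h5
      have h7 := mul_le_mul_of_nonneg_left h3 (show 0 ≤ ((n + 1 : ℕ) : ℝ) ^ δ by positivity)
      rw [← h6] at h7
      have h8 : ((n + 1 : ℕ) : ℝ) ^ (δ - 1) = ((n + 1 : ℕ) : ℝ) ^ δ / ((n + 1 : ℕ) : ℝ) := by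
        rw [Real.rpow_sub_one hn.ne']
      rw [h8]
      calc δ * (((n + 1 : ℕ) : ℝ) ^ δ / ((n + 1 : ℕ) : ℝ))
          = ((n + 1 : ℕ) : ℝ) ^ δ -
            ((n + 1 : ℕ) : ℝ) ^ δ * (1 + δ * -(1 / ((n + 1 : ℕ) : ℝ))) := by ring
        _ ≤ _ := by linarith
    have h3 : ((n + 1 : ℕ) : ℝ) ^ (δ - 1) ≤
        1 / δ * (((n + 1 : ℕ) : ℝ) ^ δ - (n : ℝ) ^ δ) := by
      rw [one_div, ← div_eq_inv_mul, le_div_iff₀ h0]
      linarith
    linarith

/-- sums of `q ^ (-1 - t)` -/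
lemma sum2 (t : ℝ) (h0 : 0 < t) (m n : ℕ) (hm : 1 ≤ m) (hmn : m ≤ n) :
    ∑ q ∈ Finset.Ioc m n, (q : ℝ) ^ (-1 - t) ≤ 1 / t * ((m : ℝ) ^ (-t) - (n : ℝ) ^ (-t)) := by
  induction n, hmn using Nat.le_induction with
  | base => simp
  | succ n hmn ih =>
    rw [Finset.sum_Ioc_succ_top (by omega)]
    have hn : (0 : ℝ) < ((n + 1 : ℕ) : ℝ) := by positivity
    have hn0 : (0 : ℝ) < (n : ℝ) := by
      have : 0 < n := by omega
      exact_mod_cast this
    have h2 : t * ((n + 1 : ℕ) : ℝ) ^ (-1 - t) ≤ (n : ℝ) ^ (-t) - ((n + 1 : ℕ) : ℝ) ^ (-t) := by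
      set a : ℝ := (n : ℝ) / ((n + 1 : ℕ) : ℝ) with ha
      have ha0 : 0 < a := by positivity
      have h4 : (n : ℝ) = ((n + 1 : ℕ) : ℝ) * a := by
        rw [ha]
        field_simp
      have h3 : 1 + t / ((n + 1 : ℕ) : ℝ) ≤ a ^ (-t) := by
        rw [Real.rpow_def_of_pos ha0]
        have h5 := Real.add_one_le_exp (Real.log a * -t)
        have h6 := Real.log_le_sub_one_of_pos ha0
        have h7 : a - 1 = -(1 / ((n + 1 : ℕ) : ℝ)) := by
          rw [ha]
          field_simp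
          push_cast
          ring
        rw [h7] at h6
        have h8 : t / ((n + 1 : ℕ) : ℝ) = (1 / ((n + 1 : ℕ) : ℝ)) * t := by ring
        rw [h8]
        nlinarith
      have h6 : (n : ℝ) ^ (-t) = ((n + 1 : ℕ) : ℝ) ^ (-t) * a ^ (-t) := by
        conv_lhs => rw [h4]
        exact Real.mul_rpow hn.le ha0.le
      have h7 := mul_le_mul_of_nonneg_left h3 (show 0 ≤ ((n + 1 : ℕ) : ℝ) ^ (-t) by positivity)
      rw [← h6] at h7
      have h8 : ((n + 1 : ℕ) : ℝ) ^ (-1 - t) = ((n + 1 : ℕ) : ℝ) ^ (-t) / ((n + 1 : ℕ) : ℝ) := by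
        rw [show -1 - t = -t - 1 by ring, Real.rpow_sub_one hn.ne']
      rw [h8]
      calc t * (((n + 1 : ℕ) : ℝ) ^ (-t) / ((n + 1 : ℕ) : ℝ))
          = ((n + 1 : ℕ) : ℝ) ^ (-t) * (1 + t / ((n + 1 : ℕ) : ℝ)) -
            ((n + 1 : ℕ) : ℝ) ^ (-t) := by ring
        _ ≤ _ := by linarith
    have h3 : ((n + 1 : ℕ) : ℝ) ^ (-1 - t) ≤
        1 / t * ((n : ℝ) ^ (-t) - ((n + 1 : ℕ) : ℝ) ^ (-t)) := by
      rw [one_div, ← div_eq_inv_mul, le_div_iff₀ h0]
      linarith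
    linarith

/-- the numerical inequality -/
lemma num (k D x : ℝ) (hk : 3 ≤ k) (hD : 2 ≤ D) (hx : x = 1 / (2 * (k - 1))) :
    (D - 2 + 1 / k ^ 2) * (k * ((1 / (2 * k) + x) / 2)) ≤
      x * (D * k - 1) - 1 / (4 * k) - (1 + 1 / (4 * k)) := by
  have hk0 : 0 < k := by linarith
  have hk1 : 0 < k - 1 := by linarith
  have hx0 : 0 < x := by rw [hx]; positivity
  have h1 : k * x = x + 1 / 2 := by
    rw [hx]
    field_simp
    ring
  have h2 : k * ((1 / (2 * k) + x) / 2) = 1 / 2 + x / 2 := by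
    have : k * (1 / (2 * k)) = 1 / 2 := by field_simp
    linear_combination (1 / 2) * this + (1 / 2) * h1
  rw [h2]
  have h3 : x * (D * k - 1) = D * (x + 1 / 2) - x := by
    linear_combination D * h1
  rw [h3]
  have h4 : 0 ≤ 2 * x - 1 / k - 1 / k ^ 2 * (1 + x) := by
    rw [hx]
    have h5 : 2 * (1 / (2 * (k - 1))) - 1 / k - 1 / k ^ 2 * (1 + 1 / (2 * (k - 1))) =
        1 / (2 * k ^ 2 * (k - 1)) := by
      field_simp
      ring
    rw [h5]
    positivity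
  have h6 : (1 : ℝ) / (4 * k) = (1 / k) / 4 := by
    field_simp
  rw [h6]
  nlinarith

/-- Module INT2. -/
theorem ks2_INT2 : T_INT2 := by
  intro k d hk hd
  have hkR : (3 : ℝ) ≤ k := by exact_mod_cast hk
  have hk0 : (0 : ℝ) < k := by linarith
  have he0 : e0 k = 1 / (2 * ((k : ℝ) - 1)) := rfl
  have he0p : 0 < e0 k := by
    rw [he0]
    apply div_pos one_pos
    linarith
  have he1 : e1 k = (1 / (2 * (k : ℝ)) + e0 k) / 2 := rfl
  have he1p : 0 < e1 k := by rw [he1]; positivity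
  have hdR : 2 * (k : ℝ) + 1 ≤ d := by exact_mod_cast hd
  set D : ℝ := (d : ℝ) / k with hD
  have hDk : (d : ℝ) = D * k := by rw [hD]; field_simp
  have hD2 : 2 < D := by
    rw [hD, lt_div_iff₀ hk0]
    linarith
  set g : ℝ := 1 / (4 * (k : ℝ)) with hg
  have hg0 : 0 < g := by positivity
  set δ : ℝ := 1 / (k : ℝ) ^ 2 with hδ
  have hδ0 : 0 < δ := by positivity
  have hδ1 : δ ≤ 1 := by
    rw [hδ, div_le_one (by positivity)]
    nlinarith
  set w : ℝ := e0 k * ((d : ℝ) - 1) - g with hw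
  set u : ℝ := 1 + g with hu
  have hu1 : 1 < u := by linarith
  set A : ℝ := D - 2 + δ with hAdef
  have hA : A * ((k : ℝ) * e1 k) ≤ w - u := by
    have h := num k D (e0 k) hkR hD2.le he0
    rw [hw, hu, hAdef, hDk, he1, hδ, hg]
    exact h
  have hA0 : 0 < A := by linarith
  have hwu : 0 < w - u := lt_of_lt_of_le (by positivity) hA
  set c : ℝ := ((3 : ℝ) ^ (2 * g) / (2 * g)) ^ ((1 : ℝ) / 2) with hc
  have hc0 : 0 < c := by positivity
  have hle2 : ∀ κ : ℝ, (1 + |κ|) ^ (-w) ≤ (1 + |κ|) ^ (-u) := fun κ =>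
    Real.rpow_le_rpow_of_exponent_le (by linarith [abs_nonneg κ]) (by linarith)
  have hBB2 : ∀ (q : ℕ) (κ : ℝ), BB k d q κ ≤
      c * (q : ℝ) ^ (-D) * (1 + |κ|) ^ (-u) := by
    intro q κ
    refine (BB_le g hg0 k d q κ).trans ?_
    rw [← mul_assoc]
    exact mul_le_mul_of_nonneg_left (hle2 κ) (by positivity)
  have hInt : ∀ q : ℕ, Integrable (fun κ => BB k d q κ) := by
    intro q
    refine Integrable.mono' ((intu u hu1).const_mul (c * (q : ℝ) ^ (-D)))
      (BB_cont k d q).aestronglyMeasurable (Filter.Eventually.of_forall fun κ => ?_)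
    rw [Real.norm_of_nonneg (BB_nonneg k d q κ)]
    exact hBB2 q κ
  refine ⟨fun q _ => hInt q, ?_⟩
  set I2 : ℝ := ∫ κ : ℝ, (1 + |κ|) ^ (-u) with hI2
  have hI20 : 0 ≤ I2 := integral_nonneg fun κ => by positivity
  set t : ℝ := D - 2 with ht
  have ht0 : 0 < t := by linarith
  have hint := intu u hu1
  refine ⟨c * I2 * (1 / δ + 1 / t * (2 : ℝ) ^ t) + 1, by positivity, fun Y Qm hY => ?_⟩
  have hY0 : 0 < Y := by linarith
  -- bound of one term
  have hterm : ∀ q ∈ Finset.Icc 1 Qm, (q : ℝ) * ∫ κ in {κ : ℝ | ¬ low k Y q κ}, BB k d q κ ≤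
      c * I2 * (if (q : ℝ) ≤ Y then Y ^ (-A) * (q : ℝ) ^ (δ - 1) else (q : ℝ) ^ (-1 - t)) := by
    intro q hq
    have hq1 : 1 ≤ q := (Finset.mem_Icc.1 hq).1
    have hqR : (1 : ℝ) ≤ q := by exact_mod_cast hq1
    have hq0 : (0 : ℝ) < q := by linarith
    have hqs : (q : ℝ) * (q : ℝ) ^ (-D) = (q : ℝ) ^ (-1 - t) := by
      nth_rewrite 1 [← Real.rpow_one (q : ℝ)]
      rw [← Real.rpow_add hq0]
      congr 1
      rw [ht]
      ring
    by_cases hqY : (q : ℝ) ≤ Y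
    · rw [if_pos hqY]
      have hset : {κ : ℝ | ¬ low k Y q κ} = {κ : ℝ | kap k Y q < |κ|} := by
        ext κ
        simp only [Set.mem_ofPred_eq, low, not_and, not_le]
        exact ⟨fun h => h hqY, fun h _ => h⟩
      have hmeas : MeasurableSet {κ : ℝ | kap k Y q < |κ|} :=
        measurableSet_lt measurable_const measurable_norm
      have hYq : 1 ≤ Y / q := by
        rw [le_div_iff₀ hq0]
        linarith
      have hYq0 : 0 < Y / q := by positivity
      have hkap0 : 0 < kap k Y q := Real.rpow_pos_of_pos hYq0 _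
      have hb : ∀ κ ∈ {κ : ℝ | kap k Y q < |κ|}, BB k d q κ ≤
          c * (q : ℝ) ^ (-D) * (Y / q) ^ (-A) * (1 + |κ|) ^ (-u) := by
        intro κ hκ
        have hκ' : kap k Y q < |κ| := hκ
        refine (BB_le g hg0 k d q κ).trans ?_
        have h1 : (1 + |κ|) ^ (-w) = (1 + |κ|) ^ (-(w - u)) * (1 + |κ|) ^ (-u) := by
          rw [← Real.rpow_add (by positivity)]
          congr 1
          ring
        have h2 : (1 + |κ|) ^ (-(w - u)) ≤ kap k Y q ^ (-(w - u)) :=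
          Real.rpow_le_rpow_of_nonpos hkap0 (by linarith) (by linarith)
        have h3 : kap k Y q ^ (-(w - u)) ≤ (Y / q) ^ (-A) := by
          unfold kap
          rw [← Real.rpow_mul hYq0.le]
          apply Real.rpow_le_rpow_of_exponent_le hYq
          have h4 : A ≤ 1 / ((k : ℝ) * e1 k) * (w - u) := by
            rw [one_div, ← div_eq_inv_mul, le_div_iff₀ (by positivity)]
            exact hA
          linarith
        rw [← hw, h1]
        have h6 : 0 ≤ (1 + |κ|) ^ (-u) := by positivity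
        have h7 : 0 ≤ c * (q : ℝ) ^ (-D) := by positivity
        calc c * ((q : ℝ) ^ (-D) *
              ((1 + |κ|) ^ (-(w - u)) * (1 + |κ|) ^ (-u)))
            = c * (q : ℝ) ^ (-D) * (1 + |κ|) ^ (-(w - u)) *
              (1 + |κ|) ^ (-u) := by ring
          _ ≤ _ := mul_le_mul_of_nonneg_right
              (mul_le_mul_of_nonneg_left (h2.trans h3) h7) h6
      rw [hset]
      have h8 : ∫ κ in {κ : ℝ | kap k Y q < |κ|}, BB k d q κ ≤
          c * (q : ℝ) ^ (-D) * (Y / q) ^ (-A) * I2 := by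
        calc ∫ κ in {κ : ℝ | kap k Y q < |κ|}, BB k d q κ
            ≤ ∫ κ in {κ : ℝ | kap k Y q < |κ|},
              c * (q : ℝ) ^ (-D) * (Y / q) ^ (-A) * (1 + |κ|) ^ (-u) :=
              setIntegral_mono_on (hInt q).integrableOn (hint.const_mul _).integrableOn hmeas hb
          _ ≤ ∫ κ : ℝ, c * (q : ℝ) ^ (-D) * (Y / q) ^ (-A) *
                (1 + |κ|) ^ (-u) :=
              setIntegral_le_integral (hint.const_mul _)
                (Filter.Eventually.of_forall fun κ => by positivity)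
          _ = _ := by rw [integral_const_mul]
      have h9 := mul_le_mul_of_nonneg_left h8 hq0.le
      refine h9.trans (le_of_eq ?_)
      have h10 : (Y / q) ^ (-A) = Y ^ (-A) * (q : ℝ) ^ A := by
        rw [Real.div_rpow hY0.le hq0.le, Real.rpow_neg hq0.le A]
        field_simp
      have h11 : (q : ℝ) ^ (-1 - t) * (q : ℝ) ^ A = (q : ℝ) ^ (δ - 1) := by
        rw [← Real.rpow_add hq0]
        congr 1
        rw [hAdef, ht]
        ring
      rw [h10]
      calc (q : ℝ) * (c * (q : ℝ) ^ (-D) * (Y ^ (-A) * (q : ℝ) ^ A) * I2)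
          = c * I2 * (Y ^ (-A) * (((q : ℝ) * (q : ℝ) ^ (-D)) * (q : ℝ) ^ A)) := by ring
        _ = _ := by rw [hqs, h11]
    · rw [if_neg hqY]
      have h8 : ∫ κ in {κ : ℝ | ¬ low k Y q κ}, BB k d q κ ≤
          c * (q : ℝ) ^ (-D) * I2 := by
        calc ∫ κ in {κ : ℝ | ¬ low k Y q κ}, BB k d q κ
            ≤ ∫ κ : ℝ, BB k d q κ :=
              setIntegral_le_integral (hInt q)
                (Filter.Eventually.of_forall fun κ => BB_nonneg k d q κ)
          _ ≤ ∫ κ : ℝ, c * (q : ℝ) ^ (-D) * (1 + |κ|) ^ (-u) :=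
              integral_mono (hInt q) (hint.const_mul _) (hBB2 q)
          _ = _ := by rw [integral_const_mul]
      have h9 := mul_le_mul_of_nonneg_left h8 hq0.le
      refine h9.trans (le_of_eq ?_)
      rw [← hqs]
      ring
  refine (Finset.sum_le_sum hterm).trans ?_
  rw [← Finset.mul_sum, Finset.sum_ite, ← Finset.mul_sum]
  set m : ℕ := ⌊Y⌋₊ with hm
  have hm1 : 1 ≤ m := Nat.le_floor (by exact_mod_cast hY)
  have hmY : (m : ℝ) ≤ Y := Nat.floor_le hY0.le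
  have hmY2 : Y / 2 ≤ m := by
    have h1 : Y < m + 1 := Nat.lt_floor_add_one Y
    have h2 : (1 : ℝ) ≤ m := by exact_mod_cast hm1
    linarith
  have hc1 : ∑ q ∈ (Finset.Icc 1 Qm).filter (fun q : ℕ => (q : ℝ) ≤ Y), (q : ℝ) ^ (δ - 1) ≤
      1 / δ * Y ^ δ := by
    have h1 : (Finset.Icc 1 Qm).filter (fun q : ℕ => (q : ℝ) ≤ Y) ⊆ Finset.Icc 1 m := by
      intro q hq
      rw [Finset.mem_filter, Finset.mem_Icc] at hq
      rw [Finset.mem_Icc]
      exact ⟨hq.1.1, Nat.le_floor hq.2⟩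
    refine (Finset.sum_le_sum_of_subset_of_nonneg h1 fun i _ _ => by positivity).trans ?_
    refine (sum1 δ hδ0 hδ1 m).trans ?_
    exact mul_le_mul_of_nonneg_left (Real.rpow_le_rpow (by positivity) hmY hδ0.le)
      (by positivity)
  have hc2 : ∑ q ∈ (Finset.Icc 1 Qm).filter (fun q : ℕ => ¬ (q : ℝ) ≤ Y), (q : ℝ) ^ (-1 - t) ≤
      1 / t * (2 : ℝ) ^ t * Y ^ (-t) := by
    have h1 : (Finset.Icc 1 Qm).filter (fun q : ℕ => ¬ (q : ℝ) ≤ Y) ⊆
        Finset.Ioc m (max m Qm) := by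
      intro q hq
      rw [Finset.mem_filter, Finset.mem_Icc, not_le] at hq
      rw [Finset.mem_Ioc]
      exact ⟨(Nat.floor_lt hY0.le).2 hq.2, hq.1.2.trans (le_max_right _ _)⟩
    refine (Finset.sum_le_sum_of_subset_of_nonneg h1 fun i _ _ => by positivity).trans ?_
    refine (sum2 t ht0 m (max m Qm) hm1 (le_max_left _ _)).trans ?_
    have h2 : (m : ℝ) ^ (-t) ≤ (Y / 2) ^ (-t) :=
      Real.rpow_le_rpow_of_nonpos (by positivity) hmY2 (by linarith)
    have h3 : (Y / 2) ^ (-t) = (2 : ℝ) ^ t * Y ^ (-t) := by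
      rw [Real.div_rpow hY0.le (by norm_num), Real.rpow_neg (by norm_num : (0 : ℝ) ≤ 2)]
      field_simp
    have h4 : (0 : ℝ) ≤ ((max m Qm : ℕ) : ℝ) ^ (-t) := by positivity
    rw [mul_assoc, ← h3]
    exact mul_le_mul_of_nonneg_left (by linarith) (by positivity)
  have hY1 : Y ^ (-A) * Y ^ δ = Y ^ (2 - D) := by
    rw [← Real.rpow_add hY0]
    congr 1
    rw [hAdef]
    ring
  have hY2 : Y ^ (-t) = Y ^ (2 - D) := by
    congr 1
    rw [ht]
    ring
  have hp : 0 < Y ^ (2 - D) := Real.rpow_pos_of_pos hY0 _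
  have h1 : Y ^ (-A) *
      ∑ q ∈ (Finset.Icc 1 Qm).filter (fun q : ℕ => (q : ℝ) ≤ Y), (q : ℝ) ^ (δ - 1) ≤
      1 / δ * Y ^ (2 - D) := by
    rw [← hY1]
    calc Y ^ (-A) *
        ∑ q ∈ (Finset.Icc 1 Qm).filter (fun q : ℕ => (q : ℝ) ≤ Y), (q : ℝ) ^ (δ - 1)
        ≤ Y ^ (-A) * (1 / δ * Y ^ δ) := mul_le_mul_of_nonneg_left hc1 (by positivity)
      _ = _ := by ring
  rw [hY2] at hc2
  have h3 := mul_le_mul_of_nonneg_left (add_le_add h1 hc2) (show 0 ≤ c * I2 by positivity)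
  refine h3.trans ?_
  nlinarith

end Pool.Agent.H64.KS2
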